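import Pool.Agent.J4H13.PL.Jobs

/-!
# Project PL: AEV
-/

set_option autoImplicit false

open FF

namespace Pool.Agent.J4H13.PL

open Pool.Agent.W602.GT Pool.Agent.W603.LV Pool.Agent.J4H13.BC

/-- the linear form as a polynomial -/
noncomputable def lp {n : ℕ} (v : VV n) : MvPolynomial (Fin (n + 1)) ℂ :=
  ∑ i, MvPolynomial.C (v i) * MvPolynomial.X i

lemma lp_homog {n : ℕ} (v : VV n) : (lp v).IsHomogeneous 1 := by
  unfold lp
  apply MvPolynomial.IsHomogeneous.sum
  intro i _
  have := (MvPolynomial.isHomogeneous_C (Fin (n + 1)) (v i)).mul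
    (MvPolynomial.isHomogeneous_X ℂ i)
  simpa using this

lemma coeff_lp {n : ℕ} (v : VV n) (i : Fin (n + 1)) :
    MvPolynomial.coeff (Finsupp.single i 1) (lp v) = v i := by
  classical
  unfold lp
  rw [MvPolynomial.coeff_sum, Finset.sum_eq_single i]
  · rw [MvPolynomial.coeff_C_mul, MvPolynomial.coeff_X, if_pos rfl, mul_one]
  · intro j _ hj
    rw [MvPolynomial.coeff_C_mul, MvPolynomial.coeff_X, if_neg, mul_zero]
    intro h
    exact hj ((Finsupp.single_left_inj one_ne_zero).1 h)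
  · intro h
    exact absurd (Finset.mem_univ i) h

lemma lp_ne_zero {n : ℕ} {v : VV n} (hv : v ≠ 0) : lp v ≠ 0 := by
  intro h
  apply hv
  funext i
  rw [← coeff_lp v i, h, MvPolynomial.coeff_zero, Pi.zero_apply]

variable {K : Type} [Field K] [Algebra ℂ K]

lemma aeval_lp {n : ℕ} (z : Fin (n + 1) → K) (v : VV n) : MvPolynomial.aeval z (lp v) = lf z v := by
  unfold lp lf
  rw [map_sum]
  refine Finset.sum_congr rfl fun i _ => ?_
  rw [map_mul, MvPolynomial.aeval_X, MvPolynomial.algHom_C]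

/-- dehomogenization -/
noncomputable def deh (n : ℕ) : Fin (n + 1) → MvPolynomial (Fin n) ℂ :=
  Fin.cons 1 (fun k => MvPolynomial.X k)

lemma aeval_deh {B : Type} [CommRing B] [Algebra ℂ B] {n : ℕ} (z : Fin n → B)
    (Q : MvPolynomial (Fin (n + 1)) ℂ) :
    MvPolynomial.aeval z (MvPolynomial.aeval (deh n) Q) =
      MvPolynomial.aeval (Fin.cons 1 z : Fin (n + 1) → B) Q := by
  have h2 := MvPolynomial.comp_aeval_apply (R := ℂ) (deh n) (MvPolynomial.aeval z) Q
  rw [h2]
  congr 2
  funext i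
  refine Fin.cases ?_ (fun k => ?_) i
  · change MvPolynomial.aeval z 1 = 1
    rw [map_one]
  · change MvPolynomial.aeval z (MvPolynomial.X k) = z k
    rw [MvPolynomial.aeval_X]

lemma aeval_ne_zero {n : ℕ} {X : Fin (n + 1) → K} (hX : GenA X) {e : ℕ}
    {Q : MvPolynomial (Fin (n + 1)) ℂ} (hQ : Q.IsHomogeneous e) (hQ0 : Q ≠ 0) :
    MvPolynomial.aeval X Q ≠ 0 := by
  intro h
  apply hQ0
  have hX' : X = Fin.cons 1 (fun k : Fin n => X k.succ) := by
    funext i
    refine Fin.cases ?_ (fun k => ?_) i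
    · rw [hX.1, Fin.cons_zero]
    · rw [Fin.cons_succ]
  rw [hX', ← aeval_deh] at h
  have hq : MvPolynomial.aeval (deh n) Q = 0 := (algebraicIndependent_iff.1 hX.2) _ h
  have h3 : MvPolynomial.X 0 * Q = 0 := by
    apply MvPolynomial.funext
    intro p
    rw [map_mul, map_zero, MvPolynomial.eval_X]
    by_cases hp : p 0 = 0
    · rw [hp, zero_mul]
    · have h4 : MvPolynomial.aeval (Fin.cons 1 (fun k : Fin n => p k.succ / p 0) : Fin (n + 1) → ℂ)
          Q = 0 := by
        rw [← aeval_deh, hq, map_zero]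
      have h7 := Pool.Agent.Helper397.HK.aeval_smul_of_homog hQ (p 0)
        (Fin.cons 1 (fun k : Fin n => p k.succ / p 0) : Fin (n + 1) → ℂ)
      rw [h4, mul_zero] at h7
      have h8 : (p 0 • (Fin.cons 1 (fun k : Fin n => p k.succ / p 0) : Fin (n + 1) → ℂ)) = p := by
        funext i
        refine Fin.cases ?_ (fun k => ?_) i
        · change p 0 * 1 = p 0
          rw [mul_one]
        · change p 0 * (p k.succ / p 0) = p k.succ
          field_simp
      rw [h8] at h7
      have h9 : MvPolynomial.eval p Q = 0 := h7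
      rw [h9, mul_zero]
  exact (mul_eq_zero.1 h3).resolve_left (MvPolynomial.X_ne_zero 0)

theorem t_AEV : S_AEV := by
  intro K _ _ n X hX
  refine ⟨fun v hv => ?_, fun e Q hQ hQ0 => aeval_ne_zero hX hQ hQ0⟩
  rw [← aeval_lp]
  exact aeval_ne_zero hX (lp_homog v) (lp_ne_zero hv)

end Pool.Agent.J4H13.PL
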