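import Pool.Agent.J4H13.PL.Jobs

/-!
# Project PL: CHAR
-/

set_option autoImplicit false

open FF

namespace Pool.Agent.J4H13.PL

open Pool.Agent.W602.GT Pool.Agent.W603.LV Pool.Agent.J4H13.BC

theorem t_CHAR : S_CHAR := by
  classical
  intro K _ _ ι _ _ n X q w S hne heven hw T
  let U : (i : ι) → Finset (VV (n i)) := fun i => T.biUnion fun r => S r i
  let m : (i : ι) → VV (n i) → ℕ := fun i l => (T.filter fun r => l ∈ S r i).card
  let S' : (i : ι) → Finset (VV (n i)) := fun i => (U i).filter fun l => Odd (m i l)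
  obtain ⟨g, hg⟩ : ∃ g : K, g = ∏ i, ∏ l ∈ U i, lf (X i) l ^ (m i l / 2) := ⟨_, rfl⟩
  have hU : ∀ i, ∀ l ∈ U i, lf (X i) l ≠ 0 := by
    intro i l hl
    obtain ⟨r, -, hr⟩ := Finset.mem_biUnion.1 hl
    exact hne r i l hr
  have hg0 : g ≠ 0 := by
    rw [hg]
    exact Finset.prod_ne_zero_iff.2 fun i _ => Finset.prod_ne_zero_iff.2 fun l hl =>
      pow_ne_zero _ (hU i l hl)
  have hin : ∀ (M : Type) [CommMonoid M] (i : ι) (f : VV (n i) → M),
      ∏ r ∈ T, ∏ l ∈ S r i, f l = ∏ l ∈ U i, f l ^ m i l := by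
    intro M _ i f
    have h1 : ∀ r ∈ T, ∏ l ∈ S r i, f l = ∏ l ∈ U i, if l ∈ S r i then f l else 1 := by
      intro r hr
      rw [Finset.prod_ite_mem]
      congr 1
      rw [Finset.inter_eq_right.2]
      exact Finset.subset_biUnion_of_mem (fun r => S r i) hr
    rw [Finset.prod_congr rfl h1, Finset.prod_comm]
    refine Finset.prod_congr rfl fun l _ => ?_
    rw [Finset.prod_ite, Finset.prod_const_one, mul_one, Finset.prod_const]
  have hprod : (∏ r ∈ T, w r) ^ 2 = ∏ i, ∏ l ∈ U i, lf (X i) l ^ m i l := by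
    rw [← Finset.prod_pow, Finset.prod_congr rfl (fun r _ => hw r), Finset.prod_comm]
    refine Finset.prod_congr rfl fun i _ => ?_
    exact hin K i (fun l => lf (X i) l)
  refine ⟨S', g, (∏ r ∈ T, w r) / g, ?_, ?_, ?_, ?_, ?_⟩
  · intro i
    rw [← Nat.not_odd_iff_even]
    intro hodd
    have h1 : Odd (∑ l ∈ U i, m i l) := Finset.odd_sum_iff_odd_card_odd _ |>.2 hodd
    have h2 : ∑ l ∈ U i, m i l = ∑ r ∈ T, (S r i).card := by
      have h3 := hin (Multiplicative ℕ) i (fun _ => Multiplicative.ofAdd 1)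
      have h4 := congrArg Multiplicative.toAdd h3
      simp only [Finset.prod_const, ← ofAdd_nsmul, toAdd_prod, toAdd_ofAdd, smul_eq_mul,
        mul_one] at h4
      exact h4.symm
    rw [h2] at h1
    have h5 : Even (∑ r ∈ T, (S r i).card) := Finset.even_sum _ fun r _ => heven r i
    exact (Nat.not_odd_iff_even.2 h5) h1
  · intro i l hl
    obtain ⟨r, -, hr⟩ := Finset.mem_biUnion.1 (Finset.mem_filter.1 hl).1
    exact ⟨r, hr⟩
  · intro L hL
    rw [hg]
    refine _root_.prod_mem fun i _ => _root_.prod_mem fun l _ => pow_mem ?_ _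
    unfold lf
    exact _root_.sum_mem fun k _ => mul_mem (L.algebraMap_mem _) (hL i k)
  · field_simp
  · rw [div_pow, hprod, div_eq_iff (pow_ne_zero _ hg0), hg, ← Finset.prod_pow,
      ← Finset.prod_mul_distrib]
    refine Finset.prod_congr rfl fun i _ => ?_
    rw [Finset.prod_filter, ← Finset.prod_pow, ← Finset.prod_mul_distrib]
    refine Finset.prod_congr rfl fun l _ => ?_
    rw [← pow_mul]
    rcases Nat.even_or_odd (m i l) with h | h
    · rw [if_neg (Nat.not_odd_iff_even.2 h), one_mul]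
      congr 1
      obtain ⟨k, hk⟩ := h
      omega
    · rw [if_pos h, ← pow_succ']
      congr 1
      obtain ⟨k, hk⟩ := h
      omega

end Pool.Agent.J4H13.PL
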