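import Pool.Agent.J4H13.PL.Main
import Pool.Agent.J4H13.PL.Aev
import Pool.Agent.J4H13.PL.Char
import Pool.Agent.J4H71.PL.GenInd
import Pool.Agent.J4H71.PL.Ind
import Pool.Agent.J4H71.PL.GoodL
import Pool.Agent.J4H52.PL.Alt
import Pool.Agent.J4H64.PL.Regt
import Pool.Agent.J4H64.PL.Lov
import Pool.Agent.J4H64.PL.Scale
import Pool.Agent.J4H2.PL.KltReg
import Pool.Agent.J4H2.PL.RatK
import Pool.Agent.J4H42.PL.RegTwo
import Pool.Agent.J4H42.PL.RatTwo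
import Pool.Agent.J4H42.PL.PairK

/-!
# Project PL: all the parts
-/

set_option autoImplicit false

namespace Pool.Agent.J4H13.PL

theorem jobs : Jobs where
  GENIND := Pool.Agent.J4H71.PL.t_GENIND
  IND := Pool.Agent.J4H71.PL.t_IND
  AEV := t_AEV
  ALT := Pool.Agent.J4H52.PL.t_ALT
  SCALE := Pool.Agent.J4H64.PL.t_SCALE
  REGT := Pool.Agent.J4H64.PL.t_REGT
  NZ := Pool.Agent.J4H52.PL.t_NZ
  KLTREG := Pool.Agent.J4H2.PL.t_KLTREG
  REGTWO := Pool.Agent.J4H42.PL.t_REGTWO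
  LOV := Pool.Agent.J4H64.PL.t_LOV
  RATK := Pool.Agent.J4H2.PL.t_RATK
  RATTWO := Pool.Agent.J4H42.PL.t_RATTWO
  PAIRK := Pool.Agent.J4H42.PL.t_PAIRK
  CHAR := t_CHAR
  GOODL := Pool.Agent.J4H71.PL.t_GOODL

end Pool.Agent.J4H13.PL
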