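import Pool.Agent.J4H13.PL.Jobs

/-!
# Project PL: the dichotomy for one factor
-/

set_option autoImplicit false

open FF

namespace Pool.Agent.J4H13.PL

open Pool.Agent.W602.GT Pool.Agent.W603.LV Pool.Agent.J4H13.BC

variable {n : ℕ}

lemma Pw.mono {S T : Finset (VV n)} (h : Pw T) (hST : S ⊆ T) : Pw S :=
  fun a ha b hb hab => h a (hST ha) b (hST hb) hab

/-- at most one member of `S` is in a line -/
lemma card_one {S : Finset (VV n)} (h : Pw S) {W : Submodule ℂ (VV n)}
    (hW : Module.finrank ℂ W ≤ 1) (T : Finset (VV n)) (hT : T ⊆ S) (hTW : ∀ l ∈ T, l ∈ W) :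
    T.card ≤ 1 := by
  rw [Finset.card_le_one]
  intro a ha b hb
  by_contra hab
  have h1 := h a (hT ha) b (hT hb) hab
  have h2 : LinearIndependent ℂ (fun i : Fin 2 => (⟨![a, b] i, by
      fin_cases i
      · exact hTW a ha
      · exact hTW b hb⟩ : W)) := by
    apply LinearIndependent.of_comp W.subtype
    exact h1
  have h3 := h2.fintype_card_le_finrank
  rw [Fintype.card_fin] at h3
  omega

lemma klt_low {S : Finset (VV n)} (h : Pw S)
    (hS : Module.finrank ℂ (Submodule.span ℂ (S : Set (VV n))) ≤ 2) : Klt S := by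
  classical
  intro W hW0 hW
  have h1 : Module.finrank ℂ W < Module.finrank ℂ (Submodule.span ℂ (S : Set (VV n))) :=
    Submodule.finrank_lt_finrank_of_lt hW
  have h2 : 1 ≤ Module.finrank ℂ W := by
    rw [Submodule.one_le_finrank_iff]
    exact hW0
  have h3 := card_one h (W := W) (by omega) (S.filter fun l => l ∈ W) (Finset.filter_subset _ _)
    (fun l hl => (Finset.mem_filter.1 hl).2)
  have h4 : (S.filter fun l => l ∈ W).card ≤ 1 := h3
  omega

lemma klt_four {S : Finset (VV n)} (h : Pw S) (hS4 : S.card ≤ 4)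
    (hS : Module.finrank ℂ (Submodule.span ℂ (S : Set (VV n))) ≤ 3) : Klt S := by
  classical
  intro W hW0 hW
  have h1 : Module.finrank ℂ W < Module.finrank ℂ (Submodule.span ℂ (S : Set (VV n))) :=
    Submodule.finrank_lt_finrank_of_lt hW
  have h2 : 1 ≤ Module.finrank ℂ W := by
    rw [Submodule.one_le_finrank_iff]
    exact hW0
  rcases Nat.lt_or_ge (Module.finrank ℂ W) 2 with h5 | h5
  · have h3 := card_one h (W := W) (by omega) (S.filter fun l => l ∈ W) (Finset.filter_subset _ _)
      (fun l hl => (Finset.mem_filter.1 hl).2)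
    have h4 : (S.filter fun l => l ∈ W).card ≤ 1 := h3
    omega
  · have h6 : (S.filter fun l => l ∈ W) ⊂ S := by
      rw [Finset.ssubset_iff_subset_ne]
      refine ⟨Finset.filter_subset _ _, fun h7 => ?_⟩
      apply absurd hW
      apply not_lt_of_ge
      rw [Submodule.span_le]
      intro l hl
      rw [Finset.mem_coe, ← h7, Finset.mem_filter] at hl
      exact hl.2
    have h8 := Finset.card_lt_card h6
    omega

open scoped Classical in
lemma klt_mono {S A : Finset (VV n)} (hSA : S ⊆ A)
    (hA : ∀ W : Submodule ℂ (VV n), W ≠ ⊥ → W ≠ ⊤ →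
      (A.filter fun l => l ∈ W).card < 2 * Module.finrank ℂ W) : Klt S := by
  intro W hW0 hW
  refine lt_of_le_of_lt (Finset.card_le_card (Finset.filter_subset_filter _ hSA)) (hA W hW0 ?_)
  rintro rfl
  exact absurd hW (not_lt_of_ge le_top)

/-- **The dichotomy.** -/
theorem dich (hAEV : S_AEV) (hLOV : S_LOV) (hKLT : S_KLTREG) (hREG : S_REGTWO) (hRATK : S_RATK)
    (hRAT2 : S_RATTWO) (hPAIRK : S_PAIRK) {S : Finset (VV n)} {d : ℕ} (hd : 1 ≤ d)
    (hcard : S.card = 2 * d) (hPw : Pw S) (h : n ≤ 2 ∨ Klt S) :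
    (∀ (K : Type) [Field K] [Algebra ℂ K] (X : Fin (n + 1) → K), GenA X →
      GoodP X (∏ l ∈ S, lf X l)) ∨ AdqB n S := by
  classical
  have h0 : (0 : VV n) ∉ S := by
    intro h0
    obtain ⟨b, hb, hne⟩ : ∃ b ∈ S, b ≠ 0 := by
      by_contra hcon
      push Not at hcon
      have h1 : S ⊆ {0} := fun b hb => Finset.mem_singleton.2 (hcon b hb)
      have h2 := Finset.card_le_card h1
      rw [Finset.card_singleton] at h2
      omega
    have h3 := (hPw 0 h0 b hb (Ne.symm hne)).ne_zero 0
    exact h3 rfl
  have hklt : Klt S → (∀ (K : Type) [Field K] [Algebra ℂ K] (X : Fin (n + 1) → K), GenA X →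
      GoodP X (∏ l ∈ S, lf X l)) ∨ AdqB n S := by
    intro hk
    rcases Nat.lt_or_ge d (Module.finrank ℂ (Submodule.span ℂ (S : Set (VV n)))) with h1 | h1
    · left
      intro K _ _ X hX
      obtain ⟨l, l', hll, hprod⟩ := hPAIRK n S d hcard hPw h0 h1 hk
      rw [hprod K (fun x => lf X x)]
      exact hRATK hAEV hLOV K n X hX d hd l l' hll
    · right
      exact hKLT hAEV n S d hd hcard hPw h1 hk
  rcases h with hn | hk
  · have hspan : Module.finrank ℂ (Submodule.span ℂ (S : Set (VV n))) ≤ n + 1 := by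
      have := Submodule.finrank_le (Submodule.span ℂ (S : Set (VV n)))
      simpa using this
    rcases Nat.lt_or_ge (Module.finrank ℂ (Submodule.span ℂ (S : Set (VV n)))) 3 with h1 | h1
    · exact hklt (klt_low hPw (by omega))
    rcases Nat.lt_or_ge d 3 with h2 | h2
    · exact hklt (klt_four hPw (by omega) (by omega))
    obtain rfl : n = 2 := by omega
    by_cases hW : ∀ W : Submodule ℂ (VV 2), Module.finrank ℂ W ≤ 2 →
      (S.filter fun l => l ∈ W).card ≤ 2 * d - 3
    · right
      exact hREG hAEV S d h2 hcard hPw hW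
    · left
      push Not at hW
      obtain ⟨W, hW2, hW3⟩ := hW
      intro K _ _ X hX
      have hWr : Module.finrank ℂ W = 2 := by
        by_contra hne
        have h3 := card_one hPw (W := W) (by omega) (S.filter fun l => l ∈ W)
          (Finset.filter_subset _ _) (fun l hl => (Finset.mem_filter.1 hl).2)
        omega
      refine hRAT2 hAEV K X hX S d hcard hPw W hWr (by omega) ?_ (by omega)
      by_contra hcon
      push Not at hcon
      have h4 : Submodule.span ℂ (S : Set (VV 2)) ≤ W := by
        rw [Submodule.span_le]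
        exact hcon
      have h5 := Submodule.finrank_mono h4
      omega
  · exact hklt hk

end Pool.Agent.J4H13.PL
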