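import Pool.Agent.J4H13.LA.Main

/-!
# Project PL: zero-cycles on the covers of products of projective spaces branched along hyperplanes

Theorem (goal). Let `K` be generated over `ℂ` by algebraically independent elements `x i k` (`i : ι`, `k : Fin (n i)`) and
square roots `w r` of products of linear forms on the factors `P^{n i}` (an even number on each factor; the coordinates of the
generic point of the factor `i` are `X i = (1, x i 0, x i 1, ...)`). For each `i` with `n i ≥ 3` suppose that fewer than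
`2 dim W` of the linear forms which occur are in the space `W` of linear forms, for all `W ≠ ⊥, ⊤`; for `n i ≤ 2` the
arrangement is arbitrary. If `K` has no regular differential forms of positive degree, then all points of all projective models
of `K` are equivalent in `CH_0 ⊗ ℚ`.

Proof. By `Pool.Agent.J4H13.BC.kummer` one has to embed the fields `ℂ(x)(v)` in rational function fields, where `v ^ 2` is a
reduced product: `v ^ 2 = ∏ i, ∏ l ∈ S i, lf (X i) l`. For each `i` with `S i ≠ ∅` either the double cover of the factor is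
rational in a strong sense (`GoodP`: then `ℂ(x)(v)` is purely transcendental), or there is a form `Q i` such that
`Q i * Ω i / sqrt` is regular, even after multiplication with such forms for the other factors (`AdqB`). If all the factors with
`S i ≠ ∅` are of the second kind, then `∏ i, Q i (X i) * TT Y D / v` is a nonzero regular differential form on `K`, of degree
`∑ r i` (`TT` is the product of the forms `Ω i`, see below), a contradiction.
-/

set_option autoImplicit false

open FF

namespace Pool.Agent.J4H13.PL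

open Pool.Agent.W602.GT Pool.Agent.W603.LV Pool.Agent.J4H13.BC

/-- the linear forms on `P^n` -/
abbrev VV (n : ℕ) : Type := Fin (n + 1) → ℂ

section

variable {K : Type} [Field K] [Algebra ℂ K]

/-- the value of a linear form -/
def lf {n : ℕ} (z : Fin (n + 1) → K) (v : VV n) : K := ∑ k, algebraMap ℂ K (v k) * z k

/-- `X` is a generic point of `P^n`, in affine coordinates -/
def GenA {n : ℕ} (X : Fin (n + 1) → K) : Prop :=
  X 0 = 1 ∧ AlgebraicIndependent ℂ fun k : Fin n => X k.succ

/-- The product of the canonical forms of the factors, as a determinant: rows and columns are indexed by `Σ i, Fin (r i + 1)`,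
the column `(i, 0)` is `Y i` in the block `i` and `0` in the other blocks, the column `(i, k + 1)` is `D (i, k) (Y)`. -/
def TM {I : Type} [DecidableEq I] {r : I → ℕ} (Y : (i : I) → Fin (r i + 1) → K)
    (D : ((i : I) × Fin (r i)) → Derivation ℂ K K) :
    Matrix ((i : I) × Fin (r i + 1)) ((i : I) × Fin (r i + 1)) K :=
  Matrix.of fun a b => Fin.cases (motive := fun _ => K) (if a.1 = b.1 then Y a.1 a.2 else 0)
    (fun k => D ⟨b.1, k⟩ (Y a.1 a.2)) b.2

/-- the determinant -/
noncomputable def TT {I : Type} [Fintype I] [DecidableEq I] {r : I → ℕ}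
    (Y : (i : I) → Fin (r i + 1) → K) (D : ((i : I) × Fin (r i)) → Derivation ℂ K K) : K :=
  (TM Y D).det

/-- The factor with the generic point `X` is good for the product `F` of linear forms: up to squares, `F` is `c s`, where the
field of the factor is generated by `s` and at most `n - 1` further elements `y`, and `c ∈ ℂ(y)`. -/
def GoodP {n : ℕ} (X : Fin (n + 1) → K) (F : K) : Prop :=
  ∃ (m : ℕ) (y : Fin m → K) (s c u : K), m + 1 ≤ n ∧
    c ∈ IntermediateField.adjoin ℂ (Set.range y) ∧ c ≠ 0 ∧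
    u ∈ IntermediateField.adjoin ℂ (Set.range X) ∧ u ≠ 0 ∧ F = c * s * u ^ 2 ∧
    ∀ k, X k ∈ IntermediateField.adjoin ℂ (insert s (Set.range y))

open scoped Classical in
/-- The local condition at the place `P`: after a change of basis `g` of the space spanned by the `b k` and a scaling with `c`
the coordinates `Y k` are regular, and the order of the denominator is small enough. -/
def BR (P : Place ℂ K) {n r : ℕ} (X : Fin (n + 1) → K) (S : Finset (VV n)) (b : Fin (r + 1) → VV n)
    (Q : MvPolynomial (Fin (n + 1)) ℂ) (e : ℕ) : Prop :=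
  ∃ (g : Matrix (Fin (r + 1)) (Fin (r + 1)) ℂ) (c : K) (Y : Fin (r + 1) → K), g.det ≠ 0 ∧ c ≠ 0 ∧
    (∀ k, Y k = c * ∑ j, algebraMap ℂ K (g k j) * lf X (b j)) ∧ (∀ k, Y k ≠ 0) ∧
    (∀ k, 0 ≤ P.ord (Y k)) ∧
    (∑ l ∈ S, P.ord (c * lf X l)) + (if ∃ k, 0 < P.ord (Y k) then 1 else 0) ≤
      2 * (P.ord (c ^ e * MvPolynomial.aeval X Q) + ∑ k, P.ord (Y k))

/-- No regular differential forms of positive degree; `N` is the dimension. -/
def NoForms (K : Type) [Field K] [Algebra ℂ K] (N : ℕ) : Prop :=
  ∀ p : ℕ, 1 ≤ p → ∀ ω : (Derivation ℂ K K) [⋀^Fin p]→ₗ[K] K,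
    (∀ P : Place ℂ K, Divisorial N P → RegAt P fun D : Fin p → Derivation ℂ K K => ω D) → ω = 0

end

/-- The factor is bad: there is a form `Q` which gives a regular differential form, in the strong sense. -/
def AdqB (n : ℕ) (S : Finset (VV n)) : Prop :=
  ∃ (r e : ℕ) (b : Fin (r + 1) → VV n) (Q : MvPolynomial (Fin (n + 1)) ℂ), 1 ≤ r ∧
    LinearIndependent ℂ b ∧ Q ≠ 0 ∧ Q.IsHomogeneous e ∧ 2 * (e + r + 1) = S.card ∧
    ∀ (K : Type) [Field K] [Algebra ℂ K] (X : Fin (n + 1) → K), GenA X →
      ∀ P : Place ℂ K, BR P X S b Q e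

/-- pairwise different hyperplanes -/
def Pw {n : ℕ} (S : Finset (VV n)) : Prop :=
  ∀ a ∈ S, ∀ b ∈ S, a ≠ b → LinearIndependent ℂ ![a, b]

open scoped Classical in
/-- the Kawamata log terminal condition: fewer than `2 dim W` forms of `S` are in `W`, for `W ≠ ⊥` strictly contained in the
span of `S` -/
def Klt {n : ℕ} (S : Finset (VV n)) : Prop :=
  ∀ W : Submodule ℂ (VV n), W ≠ ⊥ → W < Submodule.span ℂ (S : Set (VV n)) →
    (S.filter fun l => l ∈ W).card < 2 * Module.finrank ℂ W

/-! ## The jobs -/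

/-- **JOB GENIND.** Generalize `Pool.Agent.J4H13.LA.algInd_of_mem` and `embed_of_two` (`J4H13/LA/Emb.lean`): the transcendence
degree of `adjoin (range y)` is at least `card α ≥ card β`, so `y` is algebraically independent; then `reprField`
(and a bijection of `β` with `Fin m`). -/
def S_GENIND : Prop :=
  ∀ (K : Type) [Field K] [Algebra ℂ K] (α β : Type) [Fintype α] [Fintype β] (x : α → K) (y : β → K),
    AlgebraicIndependent ℂ x → Fintype.card β ≤ Fintype.card α →
    (∀ a, x a ∈ IntermediateField.adjoin ℂ (Set.range y)) →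
    AlgebraicIndependent ℂ y ∧
      ∃ m : ℕ, Nonempty (IntermediateField.adjoin ℂ (Set.range y) →ₐ[ℂ] FractionRing (PR m))

/-- **JOB IND.** The ratios of the members of the bases are algebraically independent. Complete each `b j` to a basis of
`VV (n (f j))` and take the standard basis for the `i` which are not in the range of `f`; the ratios to the first member
generate `ℂ(x)`, because `lf (X i) (Pi.single 0 1) = 1`; their number is the number of the `x`, so they are independent
(`S_GENIND`); a subfamily of an independent family is independent. -/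
def S_IND : Prop := S_GENIND →
  ∀ (K : Type) [Field K] [Algebra ℂ K] (ι : Type) [Fintype ι] [DecidableEq ι] (n : ι → ℕ)
    (X : (i : ι) → Fin (n i + 1) → K), (∀ i, X i 0 = 1) →
    (AlgebraicIndependent ℂ fun p : (i : ι) × Fin (n i) => X p.1 p.2.succ) →
    ∀ (I : Type) [Fintype I] [DecidableEq I] (f : I → ι), Function.Injective f → ∀ (r : I → ℕ)
      (b : (j : I) → Fin (r j + 1) → VV (n (f j))), (∀ j, LinearIndependent ℂ (b j)) →
      AlgebraicIndependent ℂ fun a : (j : I) × Fin (r j) =>
        lf (X (f a.1)) (b a.1 a.2.succ) / lf (X (f a.1)) (b a.1 0)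

/-- **JOB AEV.** (see `Pool.Agent.J4H13.LA.aeval_gp_ne_zero` for `n = 2`) The dehomogenization of a nonzero homogeneous
polynomial is not zero. In particular `lf X v ≠ 0` for `v ≠ 0` (state this too). -/
def S_AEV : Prop :=
  ∀ (K : Type) [Field K] [Algebra ℂ K] (n : ℕ) (X : Fin (n + 1) → K), GenA X →
    (∀ v : VV n, v ≠ 0 → lf X v ≠ 0) ∧
    ∀ (e : ℕ) (Q : MvPolynomial (Fin (n + 1)) ℂ), Q.IsHomogeneous e → Q ≠ 0 →
      MvPolynomial.aeval X Q ≠ 0

/-- **JOB ALT.** `TT Y` is an alternating multilinear function of the derivations (a change of `D (i, k)` is a change of the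
column `(i, k + 1)`: `Matrix.det_updateCol_add`, `Matrix.det_updateCol_smul`, `Matrix.det_zero_of_column_eq`). -/
def S_ALT : Prop :=
  ∀ (K : Type) [Field K] [Algebra ℂ K] (I : Type) [Fintype I] [DecidableEq I] (r : I → ℕ)
    (Y : (i : I) → Fin (r i + 1) → K),
    ∃ A : (Derivation ℂ K K) [⋀^((i : I) × Fin (r i))]→ₗ[K] K, ∀ D, A D = TT Y D

/-- **JOB SCALE.** Change of basis with `g i` in the block `i` (multiply by a block diagonal matrix from the left) and scaling
with `c i` (`D (c y) = c D y + D c y`: the second term is a multiple of the column `(i, 0)`; so this is multiplication by the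
diagonal matrix of the `c i` from the left and by a unipotent matrix from the right). -/
def S_SCALE : Prop :=
  ∀ (K : Type) [Field K] [Algebra ℂ K] (I : Type) [Fintype I] [DecidableEq I] (r : I → ℕ)
    (Y Y' : (i : I) → Fin (r i + 1) → K) (g : (i : I) → Matrix (Fin (r i + 1)) (Fin (r i + 1)) ℂ)
    (c : I → K), (∀ i, c i ≠ 0) →
    (∀ i k, Y' i k = c i * ∑ j, algebraMap ℂ K (g i k j) * Y i j) →
    ∀ D, TT Y' D = (∏ i, (c i ^ (r i + 1) * algebraMap ℂ K (g i).det)) * TT Y D

open scoped Classical in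
/-- **JOB REGT.** The order of `TT Y D` for regular `D`. By `Pool.Agent.J4H13.LA.logd` (`J4H13/LA/Ord.lean`), with a
uniformizer `π`, the row `(i, k)` of `TM Y D` is `Y i k * (κ τ + ρ)` with `κ = ord (Y i k)`, `τ b = D_b π / π` (`0` for the
columns `(i, 0)`), and `ρ` regular. So `TT Y D = (∏ Y i k) * det (ρ + κ τ)`. If all `κ` are `0` this is clear. In general
`det (ρ + κ τ) = det [[1, -τ], [κ, ρ]]` (`Matrix.det_fromBlocks_one₁₁`), and after multiplication of the first row with `π`
all entries are regular. -/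
def S_REGT : Prop :=
  ∀ (K : Type) [Field K] [Algebra ℂ K] (I : Type) [Fintype I] [DecidableEq I] (r : I → ℕ)
    (Y : (i : I) → Fin (r i + 1) → K) (P : Place ℂ K), (∀ i k, Y i k ≠ 0) →
    (∀ i k, 0 ≤ P.ord (Y i k)) → ∀ D : ((i : I) × Fin (r i)) → Derivation ℂ K K,
    (∀ a, DerReg P (D a)) →
    Ge P ((∑ i, ∑ k, P.ord (Y i k)) - (if ∃ i k, 0 < P.ord (Y i k) then 1 else 0)) (TT Y D)

/-- **JOB NZ.** `TT Y D ≠ 0` for the derivations `D` which are dual to the algebraically independent elements
`Y i (k + 1) / Y i 0` (they exist in characteristic `0`: see `Pool/Agent/Helper26/RG/DualDer.lean`, used in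
`Pool.Agent.J4H13.LA.exists_ders`, `J4H13/LA/Cons.lean`): by `S_SCALE` with `c i = 1 / Y i 0`, `g = 1` one can assume
`Y i 0 = 1`, and then the matrix is triangular with the diagonal `1`. -/
def S_NZ : Prop := S_SCALE →
  ∀ (K : Type) [Field K] [Algebra ℂ K] (I : Type) [Fintype I] [DecidableEq I] (r : I → ℕ)
    (Y : (i : I) → Fin (r i + 1) → K), (∀ i, Y i 0 ≠ 0) →
    (AlgebraicIndependent ℂ fun a : (i : I) × Fin (r i) => Y a.1 a.2.succ / Y a.1 0) →
    ∃ D, TT Y D ≠ 0

/-- **JOB KLTREG.** `V' = span S`, of dimension `r + 1`; `b` a basis of `V'`; `Q` the `e`-th power of a member of `S`,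
`e = d - r - 1`. Given `P` and `X` let `c` be the inverse of `lf X v` for a `v ∈ V'` with minimal order; so
`ν v = ord (c lf X v) ≥ 0` on `V' - 0`, with value `0` somewhere. `V_t = {v ∈ V' : v = 0 ∨ ν v ≥ t}` is a decreasing
filtration by subspaces, `V_0 = V'`, `V_1 ≠ V'`; an adapted basis `b'` has `∑ ν (b' k) = ∑_{t ≥ 1} dim V_t`, and
`∑_{l ∈ S} ν l = ∑_{t ≥ 1} card (S ∩ V_t) ≤ ∑_{t ≥ 1, V_t ≠ 0} (2 dim V_t - 1)`. -/
def S_KLTREG : Prop := S_AEV →
  ∀ (n : ℕ) (S : Finset (VV n)) (d : ℕ), 1 ≤ d → S.card = 2 * d → Pw S →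
    Module.finrank ℂ (Submodule.span ℂ (S : Set (VV n))) ≤ d → Klt S → AdqB n S

open scoped Classical in
/-- **JOB REGTWO.** `n = 2`: at most `2 d - 3` of the `2 d` lines pass through each point. `Q` is the form of
`Pool.Agent.J4H13.LA.key`, `r = 2`, `e = d - 3`, `b` the standard basis. At a place `P` let `c` be as in `LA.exists_scale`,
`z = c X`, `W = {w : w = 0 ∨ ord (z w) ≥ 1}` of dimension at most `2` (`LA.WP`, `LA.exists_coords`). If `W = 0` clear. If
`W ≠ 0` let `e₁ ∈ W` have the maximal order `α` on `W`, `e₂ ∈ W` independent of order `β ≤ α` (if `dim W = 2`), all other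
members of `W` have order `β`. `ord Q ≥ β (m / 2 - 1)` (`LA.ge_of_mem_pow`), where `m` is the number of the members of `S` in
`W`. Check `α + (m - 1) β + 1 ≤ 2 (β (m / 2 - 1) + α + β)` (and `m β + 1 ≤ ...`). Compare the proof of `LA.reg_two`. -/
def S_REGTWO : Prop := S_AEV →
  ∀ (S : Finset (VV 2)) (d : ℕ), 3 ≤ d → S.card = 2 * d → Pw S →
    (∀ W : Submodule ℂ (VV 2), Module.finrank ℂ W ≤ 2 →
      (S.filter fun l => l ∈ W).card ≤ 2 * d - 3) → AdqB 2 S

/-- **JOB LOV.** Induction on `d`. For `d + 1` pairs choose `α = a l_0 + b l'_0` which is not in any of the subspaces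
`span (l '' I ∪ l' '' I)` (`I ⊂ {1, ..., d}`) which do not contain both `l_0` and `l'_0` (a two-dimensional space is not a
finite union of lines). In the quotient `W / α` the pairs `1, ..., d` satisfy the hypothesis: if `α` is in the span of `I` then
so are `l_0, l'_0` and the span of `I ∪ {0}` has the same dimension `≥ card I + 2`. Let `φ` be the form of the induction
hypothesis on `W / α`, composed with the projection: `φ α = 0`, so `φ(l'_0) l_0 - φ(l_0) l'_0` is proportional to `α`; one
needs it nonzero, that is, `φ l_0 ≠ 0` or `φ l'_0 ≠ 0`: choose `φ` generic, or prove the stronger statement that for all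
finitely many nonzero vectors `v` one can also have `φ v ≠ 0` (in `W / α` the images of `l_0` and `l'_0` are proportional and
nonzero). The exact form of the strengthening is left to you: here it is with a finite set `Z` of nonzero vectors. -/
def S_LOV : Prop :=
  ∀ (d : ℕ) (W : Type) [AddCommGroup W] [Module ℂ W] [FiniteDimensional ℂ W] (l l' : Fin d → W)
    (Z : Finset W), (0 : W) ∉ Z →
    (∀ I : Finset (Fin d), I.Nonempty →
      I.card + 1 ≤ Module.finrank ℂ (Submodule.span ℂ (l '' (I : Set (Fin d)) ∪ l' '' I))) →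
    ∃ φ : W →ₗ[ℂ] ℂ, (∀ z ∈ Z, φ z ≠ 0) ∧
      LinearIndependent ℂ fun k => φ (l' k) • l k - φ (l k) • l' k

/-- **JOB RATK.** Let `s k = lf X (l k) / lf X (l' k)`. By `S_LOV` there are a point `x₀` and a set `J` of `d` coordinates such
that the minor of the matrix with the rows `l' k (x₀) l k - l k (x₀) l' k` in the columns `J` is not `0` (`φ v = ∑ v j x₀ j`).
So the same minor for `X` instead of `x₀` is not zero (a nonzero homogeneous polynomial, or a nonzero polynomial, in `X`:
`S_AEV`), and the coordinates `X j`, `j ∈ J`, are linear combinations of the coordinates `X i`, `i ∉ J`, with coefficients in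
`ℂ(s)` (Cramer, as `∑ j, (l k j - s k * l' k j) X j = 0`). There are `n + 1 - d ≥ 1` such `i`. Take `i₀ ∉ J`, and let
`y` be the family of the `s k`, `k` not the last, and the `X i / X i₀`, `i ∉ J`, `i ≠ i₀` (so `m = n - 1`), `s` the last of
the `s k`, `c` the product of the other `s k`, `u = ∏ k, lf X (l' k)`. Then all `X i / X i₀` are in `ℂ(y, s)`, so also
`1 / X i₀`, as `X 0 = 1`. -/
def S_RATK : Prop := S_AEV → S_LOV →
  ∀ (K : Type) [Field K] [Algebra ℂ K] (n : ℕ) (X : Fin (n + 1) → K), GenA X → ∀ (d : ℕ), 1 ≤ d →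
    ∀ l l' : Fin d → VV n, (∀ I : Finset (Fin d), I.Nonempty →
      I.card + 1 ≤ Module.finrank ℂ (Submodule.span ℂ (l '' (I : Set (Fin d)) ∪ l' '' I))) →
    GoodP X (∏ k, (lf X (l k) * lf X (l' k)))

open scoped Classical in
/-- **JOB RATTWO.** `n = 2`, all but at most two of the `2 d` lines pass through the point `W`, but not all of them. Basis
`m 0, m 1` of `W`, `t = M_1 / M_0`, the product of the members of `S` in `W` is `M_0 ^ j * c`, `c ∈ ℂ(t)`
(`LA.prod_mem` in `J4H13/LA/Rat.lean`). If one line `m 2` is not in `W`: `j = 2 d - 1`, the product is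
`c * (M_2 / M_0) * (M_0 ^ d) ^ 2`: `y = ![t]`, `s = M_2 / M_0`. If two lines `m 2`, `m'` are not in `W`: `j = 2 d - 2`, the
product is `c * (M_2 / M') * (M_0 ^ (d - 1) * M') ^ 2`, `s = M_2 / M'`: write `m' = a m 2 + W`-part, so
`M_2 / M_0` is a Moebius transform of `s` with coefficients in `ℂ(t)` (as in `LA.good_two`). -/
def S_RATTWO : Prop := S_AEV →
  ∀ (K : Type) [Field K] [Algebra ℂ K] (X : Fin (2 + 1) → K), GenA X → ∀ (S : Finset (VV 2)) (d : ℕ),
    S.card = 2 * d → Pw S → ∀ W : Submodule ℂ (VV 2), Module.finrank ℂ W = 2 →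
    2 * d - 2 ≤ (S.filter fun l => l ∈ W).card → (∃ l ∈ S, l ∉ W) → 2 ≤ d →
    GoodP X (∏ l ∈ S, lf X l)

/-- **JOB PAIRK.** Any enumeration of `S` works: for `I ≠ ∅` let `W` be the span of the `2 card I` different members `l k`,
`l' k`, `k ∈ I`, of `S`. If `W = span S` then `finrank W ≥ d + 1 ≥ card I + 1`; otherwise `2 card I ≤ card (S ∩ W) <
2 finrank W`. -/
def S_PAIRK : Prop :=
  ∀ (n : ℕ) (S : Finset (VV n)) (d : ℕ), S.card = 2 * d → Pw S → (0 : VV n) ∉ S →
    d + 1 ≤ Module.finrank ℂ (Submodule.span ℂ (S : Set (VV n))) → Klt S →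
    ∃ l l' : Fin d → VV n,
      (∀ I : Finset (Fin d), I.Nonempty →
        I.card + 1 ≤ Module.finrank ℂ (Submodule.span ℂ (l '' (I : Set (Fin d)) ∪ l' '' I))) ∧
      ∀ (M : Type) [CommMonoid M] (F : VV n → M), ∏ x ∈ S, F x = ∏ k, (F (l k) * F (l' k))

/-- **JOB CHAR.** `S' i` is the set of the `l` which are in an odd number of the sets `S r i`, `r ∈ T`, and `g` is the product
of the `lf (X i) l ^ [m / 2]`, where `m` is the number of `r ∈ T` with `l ∈ S r i`. -/
def S_CHAR : Prop :=
  ∀ (K : Type) [Field K] [Algebra ℂ K] (ι : Type) [Fintype ι] [DecidableEq ι] (n : ι → ℕ)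
    (X : (i : ι) → Fin (n i + 1) → K) (q : ℕ) (w : Fin q → K)
    (S : Fin q → (i : ι) → Finset (VV (n i))), (∀ r i, ∀ l ∈ S r i, lf (X i) l ≠ 0) →
    (∀ r i, Even (S r i).card) → (∀ r, w r ^ 2 = ∏ i, ∏ l ∈ S r i, lf (X i) l) →
    ∀ T : Finset (Fin q), ∃ (S' : (i : ι) → Finset (VV (n i))) (g v : K),
      (∀ i, Even (S' i).card) ∧ (∀ i, ∀ l ∈ S' i, ∃ r, l ∈ S r i) ∧
      (∀ L : IntermediateField ℂ K, (∀ i k, X i k ∈ L) → g ∈ L) ∧
      ∏ r ∈ T, w r = g * v ∧ v ^ 2 = ∏ i, ∏ l ∈ S' i, lf (X i) l

/-- **JOB GOODL.** `GoodP` for the factor `i₀` gives `m, y, s, c, u`. Let `L` be generated by the `X i k.succ`, `i ≠ i₀`, the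
`y` and `v' = v / u`: at most as many elements as there are `x`. `v' ^ 2 = c₀ c s`, where `c₀ ∈ L` is the product for the
`i ≠ i₀`, `c₀ ≠ 0`; so `s ∈ L`, so all `X i k` are in `L`, `u ∈ L` and `v ∈ L`. Then `S_GENIND`. -/
def S_GOODL : Prop := S_GENIND → S_AEV →
  ∀ (K : Type) [Field K] [Algebra ℂ K] (ι : Type) [Fintype ι] [DecidableEq ι] (n : ι → ℕ)
    (X : (i : ι) → Fin (n i + 1) → K), (∀ i, X i 0 = 1) →
    (AlgebraicIndependent ℂ fun p : (i : ι) × Fin (n i) => X p.1 p.2.succ) →
    ∀ (S : (i : ι) → Finset (VV (n i))), (∀ i, (0 : VV (n i)) ∉ S i) → ∀ v : K,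
    v ^ 2 = ∏ i, ∏ l ∈ S i, lf (X i) l → ∀ i₀, GoodP (X i₀) (∏ l ∈ S i₀, lf (X i₀) l) →
    ∃ L : IntermediateField ℂ K, (∀ i k, X i k ∈ L) ∧ v ∈ L ∧
      ∃ m : ℕ, Nonempty (L →ₐ[ℂ] FractionRing (PR m))

end Pool.Agent.J4H13.PL
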