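import Pool.Agent.J4H13.PL.Reg

/-!
# Project PL: the assembly
-/

set_option autoImplicit false

open FF

namespace Pool.Agent.J4H13.PL

open Pool.Agent.W602.GT Pool.Agent.W603.LV Pool.Agent.J4H13.BC Pool.Agent.Helper397.HK

/-- all the jobs -/
structure Jobs : Prop where
  GENIND : S_GENIND
  IND : S_IND
  AEV : S_AEV
  ALT : S_ALT
  SCALE : S_SCALE
  REGT : S_REGT
  NZ : S_NZ
  KLTREG : S_KLTREG
  REGTWO : S_REGTWO
  LOV : S_LOV
  RATK : S_RATK
  RATTWO : S_RATTWO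
  PAIRK : S_PAIRK
  CHAR : S_CHAR
  GOODL : S_GOODL

variable {K : Type} [Field K] [Algebra ℂ K]

/-- **The double covers.** -/
theorem good_prod (J : Jobs) {N : ℕ} (hno : NoForms K N) {ι : Type} [Fintype ι]
    [DecidableEq ι] {n : ι → ℕ} {X : (i : ι) → Fin (n i + 1) → K} (hX0 : ∀ i, X i 0 = 1)
    (hX : AlgebraicIndependent ℂ fun p : (i : ι) × Fin (n i) => X p.1 p.2.succ)
    {S : (i : ι) → Finset (VV (n i))} (hPw : ∀ i, Pw (S i)) (heven : ∀ i, Even (S i).card)
    (hS : ∀ i, n i ≤ 2 ∨ Klt (S i)) {v : K}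
    (hv : v ^ 2 = ∏ i, ∏ l ∈ S i, lf (X i) l) :
    ∃ L : IntermediateField ℂ K, (∀ i k, X i k ∈ L) ∧ v ∈ L ∧
      ∃ m : ℕ, Nonempty (L →ₐ[ℂ] FractionRing (PR m)) := by
  classical
  have hGA : ∀ i, GenA (X i) := by
    intro i
    refine ⟨hX0 i, ?_⟩
    exact hX.comp (fun k : Fin (n i) => (⟨i, k⟩ : (i : ι) × Fin (n i)))
      (fun a b h => by simpa using h)
  have hS0 : ∀ i, (0 : VV (n i)) ∉ S i := by
    intro i h0
    obtain ⟨k, hk⟩ := heven i
    have hpos : 0 < (S i).card := Finset.card_pos.2 ⟨0, h0⟩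
    obtain ⟨b, hb, hne⟩ : ∃ b ∈ S i, b ≠ 0 := by
      by_contra hcon
      push Not at hcon
      have h1 : S i ⊆ {0} := fun b hb => Finset.mem_singleton.2 (hcon b hb)
      have h2 := Finset.card_le_card h1
      rw [Finset.card_singleton] at h2
      omega
    exact (hPw i 0 h0 b hb (Ne.symm hne)).ne_zero 0 rfl
  have hv0 : v ≠ 0 := by
    rintro rfl
    have h1 : ∏ i, ∏ l ∈ S i, lf (X i) l = 0 := by
      rw [← hv]
      ring
    obtain ⟨i, -, hi⟩ := Finset.prod_eq_zero_iff.1 h1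
    obtain ⟨l, hl, h2⟩ := Finset.prod_eq_zero_iff.1 hi
    refine (J.AEV K (n i) (X i) (hGA i)).1 l ?_ h2
    rintro rfl
    exact hS0 i hl
  by_cases hne : ∃ i, (S i).Nonempty
  · by_cases hgood : ∃ i, GoodP (X i) (∏ l ∈ S i, lf (X i) l)
    · obtain ⟨i₀, hi₀⟩ := hgood
      exact J.GOODL J.GENIND J.AEV K ι n X hX0 hX S hS0 v hv i₀ hi₀
    · push Not at hgood
      exfalso
      refine no_adq J.IND J.GENIND J.AEV J.ALT J.SCALE J.REGT J.NZ hno hX0 hX hv0 hv hS0 hne ?_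
      intro i hi
      obtain ⟨k, hk⟩ := heven i
      have hpos : 0 < (S i).card := Finset.card_pos.2 hi
      rcases dich J.AEV J.LOV J.KLTREG J.REGTWO J.RATK J.RATTWO J.PAIRK (S := S i) (d := k)
        (by omega) (by omega) (hPw i) (hS i) with h | h
      · exact absurd (h K (X i) (hGA i)) (hgood i)
      · exact h
  · push Not at hne
    have hv1 : v ^ 2 = 1 := by
      rw [hv]
      apply Finset.prod_eq_one
      intro i _
      rw [hne i, Finset.prod_empty]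
    obtain ⟨-, m, hm⟩ := J.GENIND K ((i : ι) × Fin (n i)) ((i : ι) × Fin (n i)) _
      (fun p => X p.1 p.2.succ) hX le_rfl
      (fun a => IntermediateField.subset_adjoin _ _ ⟨a, rfl⟩)
    refine ⟨_, ?_, ?_, m, hm⟩
    · intro i k
      refine Fin.cases ?_ (fun k => ?_) k
      · rw [hX0]
        exact one_mem _
      · exact IntermediateField.subset_adjoin _ _ ⟨⟨i, k⟩, rfl⟩
    · have hv2 : (v - 1) * (v + 1) = 0 := by linear_combination hv1
      rcases mul_eq_zero.1 hv2 with h | h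
      · rw [sub_eq_zero.1 h]
        exact one_mem _
      · rw [eq_neg_of_add_eq_zero_left h]
        exact neg_mem (one_mem _)

open scoped Classical in
/-- **The generalized Bloch conjecture for the covers of products of projective spaces branched along hyperplanes.** -/
theorem bloch_prod (J : Jobs) {ι : Type} [Fintype ι] [DecidableEq ι] {n : ι → ℕ} {N : ℕ}
    (hno : NoForms K N) {X : (i : ι) → Fin (n i + 1) → K} (hX0 : ∀ i, X i 0 = 1)
    (hX : AlgebraicIndependent ℂ fun p : (i : ι) × Fin (n i) => X p.1 p.2.succ)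
    {A : (i : ι) → Finset (VV (n i))} (hPw : ∀ i, Pw (A i)) (hA0 : ∀ i, (0 : VV (n i)) ∉ A i)
    (hA : ∀ i, n i ≤ 2 ∨ ∀ W : Submodule ℂ (VV (n i)), W ≠ ⊥ → W ≠ ⊤ →
      ((A i).filter fun l => l ∈ W).card < 2 * Module.finrank ℂ W)
    {q : ℕ} {w : Fin q → K} (hw : ∀ r, ∃ S : (i : ι) → Finset (VV (n i)),
      (∀ i, S i ⊆ A i ∧ Even (S i).card) ∧ w r ^ 2 = ∏ i, ∏ l ∈ S i, lf (X i) l)
    (hK : IntermediateField.adjoin ℂ
      (Set.range (fun p : (i : ι) × Fin (n i + 1) => X p.1 p.2) ∪ Set.range w) = ⊤)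
    {M : ℕ} (ξ : Fin (M + 1) → K) (hξ : ξ ≠ 0) : ∀ a b : (locus ξ hξ).Pts ℂ, cls a = cls b := by
  have hGA : ∀ i, GenA (X i) := by
    intro i
    refine ⟨hX0 i, ?_⟩
    exact hX.comp (fun k : Fin (n i) => (⟨i, k⟩ : (i : ι) × Fin (n i)))
      (fun a b h => by simpa using h)
  choose S hS hw2 using hw
  have hlf : ∀ r i, ∀ l ∈ S r i, lf (X i) l ≠ 0 := by
    intro r i l hl
    refine (J.AEV K (n i) (X i) (hGA i)).1 l ?_
    rintro rfl
    exact hA0 i ((hS r i).1 hl)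
  have hw0 : ∀ r, w r ≠ 0 := by
    intro r h
    have h1 : ∏ i, ∏ l ∈ S r i, lf (X i) l = 0 := by
      rw [← hw2, h]
      ring
    obtain ⟨i, -, hi⟩ := Finset.prod_eq_zero_iff.1 h1
    obtain ⟨l, hl, h2⟩ := Finset.prod_eq_zero_iff.1 hi
    exact hlf r i l hl h2
  obtain ⟨k₀, hk₀⟩ : ∃ k₀ : IntermediateField ℂ K, k₀ = IntermediateField.adjoin ℂ
      (Set.range (fun p : (i : ι) × Fin (n i + 1) => X p.1 p.2)) := ⟨_, rfl⟩
  have hXk : ∀ i k, X i k ∈ k₀ := by
    intro i k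
    rw [hk₀]
    exact IntermediateField.subset_adjoin _ _ ⟨⟨i, k⟩, rfl⟩
  have hlk : ∀ i (l : VV (n i)), lf (X i) l ∈ k₀ := by
    intro i l
    unfold lf
    exact _root_.sum_mem fun k _ => mul_mem (k₀.algebraMap_mem _) (hXk i k)
  have hwk : ∀ r, w r ^ 2 ∈ k₀ := by
    intro r
    rw [hw2]
    exact _root_.prod_mem fun i _ => _root_.prod_mem fun l _ => hlk i l
  have hgen' : IntermediateField.adjoin k₀ (Set.range w) = ⊤ := by
    apply IntermediateField.restrictScalars_injective ℂ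
    rw [IntermediateField.restrictScalars_top, eq_top_iff, ← hK,
      IntermediateField.adjoin_le_iff]
    rintro z (hz | hz)
    · change z ∈ IntermediateField.adjoin k₀ (Set.range w)
      have h1 : z ∈ k₀ := by
        obtain ⟨p, rfl⟩ := hz
        exact hXk p.1 p.2
      exact (IntermediateField.adjoin k₀ (Set.range w)).algebraMap_mem ⟨z, h1⟩
    · change z ∈ IntermediateField.adjoin k₀ (Set.range w)
      exact IntermediateField.subset_adjoin _ _ hz
  refine kummer hwk hw0 hgen' ?_ ξ hξ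
  intro T
  obtain ⟨S', g, v, hev, hsub, hgL, hgv, hv⟩ := J.CHAR K ι n X q w S hlf
    (fun r i => (hS r i).2) hw2 T
  have hsub' : ∀ i, S' i ⊆ A i := by
    intro i l hl
    obtain ⟨r, hr⟩ := hsub i l hl
    exact (hS r i).1 hr
  obtain ⟨L, hXL, hvL, m, hm⟩ := good_prod J hno hX0 hX (fun i => (hPw i).mono (hsub' i)) hev
    (fun i => (hA i).imp_right fun h => klt_mono (hsub' i) h) hv
  refine ⟨L, ?_, ?_, m, hm⟩
  · rw [hk₀, IntermediateField.adjoin_le_iff]
    rintro _ ⟨p, rfl⟩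
    exact hXL p.1 p.2
  · rw [hgv]
    exact mul_mem (hgL L hXL) hvL

end Pool.Agent.J4H13.PL
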