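import Pool.Agent.J4H13.PL.Dich

/-!
# Project PL: the regular differential form
-/

set_option autoImplicit false

open FF

namespace Pool.Agent.J4H13.PL

open Pool.Agent.W602.GT Pool.Agent.W603.LV Pool.Agent.J4H13.BC

variable {K : Type} [Field K] [Algebra ℂ K]

/-- the order of the form at a place -/
theorem reg_place (hSCALE : S_SCALE) (hREGT : S_REGT) {I : Type} [Fintype I] [DecidableEq I]
    {n : I → ℕ} {X : (i : I) → Fin (n i + 1) → K} {r e : I → ℕ}
    {S : (i : I) → Finset (VV (n i))} {b : (i : I) → Fin (r i + 1) → VV (n i)}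
    {Q : (i : I) → MvPolynomial (Fin (n i + 1)) ℂ} (hS : ∀ i, ∀ l ∈ S i, lf (X i) l ≠ 0)
    (hcard : ∀ i, 2 * (e i + r i + 1) = (S i).card)
    (hQ : ∀ i, MvPolynomial.aeval (X i) (Q i) ≠ 0) {v : K} (hv0 : v ≠ 0)
    (hv : v ^ 2 = ∏ i, ∏ l ∈ S i, lf (X i) l) {P : Place ℂ K}
    (hBR : ∀ i, BR P (X i) (S i) (b i) (Q i) (e i))
    {D : ((i : I) × Fin (r i)) → Derivation ℂ K K} (hD : ∀ a, DerReg P (D a)) :
    Ge P 0 ((∏ i, MvPolynomial.aeval (X i) (Q i)) / v *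
      TT (fun i k => lf (X i) (b i k)) D) := by
  classical
  choose g c Y hg hc hY hY0 hYreg hineq using hBR
  have h1 := hSCALE K I r (fun i k => lf (X i) (b i k)) Y g c hc hY D
  have h2 := hREGT K I r Y P hY0 hYreg D hD
  obtain ⟨G, hG⟩ : ∃ G : K, G = ∏ i, algebraMap ℂ K (g i).det := ⟨_, rfl⟩
  obtain ⟨v', hv'⟩ : ∃ v' : K, v' = v * ∏ i, c i ^ (e i + r i + 1) := ⟨_, rfl⟩
  have hcp : ∀ m : I → ℕ, ∏ i, c i ^ m i ≠ 0 := fun m =>
    Finset.prod_ne_zero_iff.2 fun i _ => pow_ne_zero _ (hc i)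
  have hG0 : G ≠ 0 := by
    rw [hG]
    refine Finset.prod_ne_zero_iff.2 fun i _ => ?_
    exact (map_ne_zero _).2 (hg i)
  have hv'0 : v' ≠ 0 := by
    rw [hv']
    exact mul_ne_zero hv0 (hcp _)
  have hv'2 : v' ^ 2 = ∏ i, ∏ l ∈ S i, (c i * lf (X i) l) := by
    rw [hv', mul_pow, hv, ← Finset.prod_pow, ← Finset.prod_mul_distrib]
    refine Finset.prod_congr rfl fun i _ => ?_
    rw [Finset.prod_mul_distrib, Finset.prod_const, ← hcard i, ← pow_mul]
    ring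
  have hordv : 2 * P.ord v' = ∑ i, ∑ l ∈ S i, P.ord (c i * lf (X i) l) := by
    have h3 : P.ord (v' ^ 2) = 2 * P.ord v' := by
      rw [P.ord_pow]
      push_cast
      rfl
    rw [← h3, hv'2, LA.ord_prod P]
    · refine Finset.sum_congr rfl fun i _ => ?_
      exact LA.ord_prod P _ _ fun l hl => mul_ne_zero (hc i) (hS i l hl)
    · intro i _
      exact Finset.prod_ne_zero_iff.2 fun l hl => mul_ne_zero (hc i) (hS i l hl)
  obtain ⟨q, hq⟩ : ∃ q : K, q = ∏ i, (c i ^ e i * MvPolynomial.aeval (X i) (Q i)) := ⟨_, rfl⟩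
  have hq0 : q ≠ 0 := by
    rw [hq]
    exact Finset.prod_ne_zero_iff.2 fun i _ => mul_ne_zero (pow_ne_zero _ (hc i)) (hQ i)
  have hordq : P.ord q = ∑ i, P.ord (c i ^ e i * MvPolynomial.aeval (X i) (Q i)) := by
    rw [hq]
    exact LA.ord_prod P _ _ fun i _ => mul_ne_zero (pow_ne_zero _ (hc i)) (hQ i)
  have hid : (∏ i, MvPolynomial.aeval (X i) (Q i)) / v * TT (fun i k => lf (X i) (b i k)) D =
      q / v' * G⁻¹ * TT Y D := by
    rw [h1, Finset.prod_mul_distrib, ← hG, hq, Finset.prod_mul_distrib, hv']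
    have h4 : ∏ i, c i ^ (e i + r i + 1) = (∏ i, c i ^ e i) * ∏ i, c i ^ (r i + 1) := by
      rw [← Finset.prod_mul_distrib]
      refine Finset.prod_congr rfl fun i _ => ?_
      ring
    rw [h4]
    have h5 := hcp e
    have h6 := hcp fun i => r i + 1
    field_simp
  rw [hid]
  have hordG : P.ord G⁻¹ = 0 := by
    have h7 : G = algebraMap ℂ K (∏ i, (g i).det) := by rw [hG, map_prod]
    rw [P.ord_inv, h7]
    have h8 : (∏ i, (g i).det) ≠ 0 := Finset.prod_ne_zero_iff.2 fun i _ => hg i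
    rw [P.ord_const h8, neg_zero]
  have h9 : Ge P (P.ord q - P.ord v') (q / v' * G⁻¹) := by
    right
    rw [P.ord_mul (div_ne_zero hq0 hv'0) (inv_ne_zero hG0), hordG, add_zero, div_eq_mul_inv,
      P.ord_mul hq0 (inv_ne_zero hv'0), P.ord_inv]
    omega
  refine (h9.mul h2).mono ?_
  have hsum : 2 * P.ord v' + ∑ i, (if ∃ k, 0 < P.ord (Y i k) then (1 : ℤ) else 0) ≤
      2 * (P.ord q + ∑ i, ∑ k, P.ord (Y i k)) := by
    rw [hordv, hordq, ← Finset.sum_add_distrib, ← Finset.sum_add_distrib, Finset.mul_sum]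
    exact Finset.sum_le_sum fun i _ => hineq i
  have hnn : 0 ≤ ∑ i, (if ∃ k, 0 < P.ord (Y i k) then (1 : ℤ) else 0) :=
    Finset.sum_nonneg fun i _ => by split_ifs <;> norm_num
  by_cases hex : ∃ i k, 0 < P.ord (Y i k)
  · rw [if_pos hex]
    obtain ⟨i₀, k₀, hk₀⟩ := hex
    have h10 : 1 ≤ ∑ i, (if ∃ k, 0 < P.ord (Y i k) then (1 : ℤ) else 0) := by
      have h11 := Finset.single_le_sum (f := fun i => if ∃ k, 0 < P.ord (Y i k) then (1 : ℤ) else 0)
        (fun i _ => by split_ifs <;> norm_num) (Finset.mem_univ i₀)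
      rw [if_pos ⟨k₀, hk₀⟩] at h11
      exact h11
    omega
  · rw [if_neg hex]
    omega

/-- **Contradiction.** -/
theorem no_adq (hIND : S_IND) (hGEN : S_GENIND) (hAEV : S_AEV) (hALT : S_ALT) (hSCALE : S_SCALE)
    (hREGT : S_REGT) (hNZ : S_NZ) {N : ℕ} (hno : NoForms K N) {ι : Type} [Fintype ι]
    [DecidableEq ι] {n : ι → ℕ} {X : (i : ι) → Fin (n i + 1) → K} (hX0 : ∀ i, X i 0 = 1)
    (hX : AlgebraicIndependent ℂ fun p : (i : ι) × Fin (n i) => X p.1 p.2.succ)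
    {S : (i : ι) → Finset (VV (n i))} {v : K} (hv0 : v ≠ 0)
    (hv : v ^ 2 = ∏ i, ∏ l ∈ S i, lf (X i) l) (hS0 : ∀ i, (0 : VV (n i)) ∉ S i)
    (hne : ∃ i, (S i).Nonempty) (hadq : ∀ i, (S i).Nonempty → AdqB (n i) (S i)) : False := by
  classical
  have hGA : ∀ i, GenA (X i) := by
    intro i
    refine ⟨hX0 i, ?_⟩
    exact hX.comp (fun k : Fin (n i) => (⟨i, k⟩ : (i : ι) × Fin (n i)))
      (fun a b h => by simpa using h)
  have hlf : ∀ i, ∀ l ∈ S i, lf (X i) l ≠ 0 := by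
    intro i l hl
    refine (hAEV K (n i) (X i) (hGA i)).1 l ?_
    rintro rfl
    exact hS0 i hl
  let I := {i : ι // (S i).Nonempty}
  have hadq' : ∀ j : I, AdqB (n j.1) (S j.1) := fun j => hadq j.1 j.2
  choose r e b Q hr hb hQ0 hQ hcard hreg using hadq'
  obtain ⟨i₀, hi₀⟩ := hne
  have hv' : v ^ 2 = ∏ j : I, ∏ l ∈ S j.1, lf (X j.1) l := by
    rw [hv]
    symm
    have h1 : ∏ j : I, ∏ l ∈ S j.1, lf (X j.1) l =
        ∏ i ∈ Finset.univ.filter (fun i => (S i).Nonempty), ∏ l ∈ S i, lf (X i) l := by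
      symm
      apply Finset.prod_subtype
      intro i
      simp
    rw [h1]
    apply Finset.prod_subset (Finset.subset_univ _)
    intro i _ hi
    have h2 : S i = ∅ := by
      by_contra h3
      apply hi
      rw [Finset.mem_filter]
      exact ⟨Finset.mem_univ i, Finset.nonempty_iff_ne_empty.2 h3⟩
    rw [h2, Finset.prod_empty]
  have hQX : ∀ j : I, MvPolynomial.aeval (X j.1) (Q j) ≠ 0 := fun j =>
    (hAEV K _ (X j.1) (hGA j.1)).2 (e j) (Q j) (hQ j) (hQ0 j)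
  -- the form
  obtain ⟨A, hA⟩ := hALT K I r (fun j k => lf (X j.1) (b j k))
  obtain ⟨D₀, hD₀⟩ := hNZ hSCALE K I r (fun j k => lf (X j.1) (b j k))
    (fun j => (hAEV K _ (X j.1) (hGA j.1)).1 _ ((hb j).ne_zero 0))
    (hIND hGEN K ι n X hX0 hX I Subtype.val Subtype.val_injective r b hb)
  let κ := (j : I) × Fin (r j)
  let p := Fintype.card κ
  have hp : 1 ≤ p := by
    have h3 : 0 < Fintype.card κ := Fintype.card_pos_iff.2 ⟨⟨⟨i₀, hi₀⟩, ⟨0, hr ⟨i₀, hi₀⟩⟩⟩⟩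
    exact h3
  let ε : κ ≃ Fin p := Fintype.equivFin κ
  obtain ⟨q, hq⟩ : ∃ q : K, q = (∏ j : I, MvPolynomial.aeval (X j.1) (Q j)) / v := ⟨_, rfl⟩
  have hq0 : q ≠ 0 := by
    rw [hq]
    exact div_ne_zero (Finset.prod_ne_zero_iff.2 fun j _ => hQX j) hv0
  have hω := hno p hp (q • AlternatingMap.domDomCongr ε A) (by
    intro P _ D hD
    change Ge P 0 ((q • AlternatingMap.domDomCongr ε A) D)
    have h4 : (q • AlternatingMap.domDomCongr ε A) D =
        q * TT (fun j k => lf (X j.1) (b j k)) (fun a => D (ε a)) := by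
      rw [AlternatingMap.smul_apply, AlternatingMap.domDomCongr_apply, hA, smul_eq_mul]
      rfl
    rw [h4, hq]
    exact reg_place hSCALE hREGT (fun j => hlf j.1) hcard hQX hv0 hv'
      (fun j => hreg j K (X j.1) (hGA j.1) P) (fun a => hD (ε a)))
  have h5 : (q • AlternatingMap.domDomCongr ε A) (fun i => D₀ (ε.symm i)) = 0 := by
    rw [hω]
    rfl
  rw [AlternatingMap.smul_apply, AlternatingMap.domDomCongr_apply, hA, smul_eq_mul] at h5
  have h6 : (fun i => D₀ (ε.symm i)) ∘ ε = D₀ := by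
    funext a
    simp
  have h7 : TT (fun j k => lf (X j.1) (b j k)) ((fun i => D₀ (ε.symm i)) ∘ ε) = 0 :=
    (mul_eq_zero.1 h5).resolve_left hq0
  rw [h6] at h7
  exact hD₀ h7

end Pool.Agent.J4H13.PL
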